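import Mathlib
import Pool.Agent.H443R3.PCA

set_option autoImplicit false

open MeasureTheory ProbabilityTheory Filter Topology
open scoped ENNReal Pointwise

namespace Pool.Agent.Results.MP_3c7ff8_pr.ErgodicImpliesMixing

open Pool.Agent.H443R3

variable {d : ℕ} {S : Type}

/-- `Φ` is ergodic with unique invariant probability measure `π`: `π` is the only invariant
probability measure, and `μ Φ^t → π` weakly for every initial probability measure `μ`. -/
structure IsErgodic [TopologicalSpace S] [MeasurableSpace S] (Φ : PCA d S)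
    (π : Measure (Config d S)) : Prop where
  prob : IsProbabilityMeasure π
  invariant : Φ.evolve π = π
  unique : ∀ ν : Measure (Config d S), IsProbabilityMeasure ν → Φ.evolve ν = ν → ν = π
  converges : ∀ μ : Measure (Config d S), IsProbabilityMeasure μ →
    ∀ f : Config d S → ℝ, Continuous f →
      Tendsto (fun t : ℕ => ∫ x, f x ∂(Φ.evolve^[t] μ)) atTop (𝓝 (∫ x, f x ∂π))

/-- Spatial mixing: `π([u] ∩ σ^{-k}[v]) → π([u]) π([v])` as `‖k‖_∞ → ∞`, for all cylinders. -/
def SpatiallyMixing [MeasurableSpace S] (π : Measure (Config d S)) : Prop :=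
  ∀ (A B : Finset (Site d)) (u : A → S) (v : B → S),
    Tendsto (fun k : Site d => (π (cyl A u ∩ shift k ⁻¹' cyl B v)).toReal)
      (comap (fun k : Site d => ‖k‖) atTop)
      (𝓝 ((π (cyl A u)).toReal * (π (cyl B v)).toReal))

theorem measurable_shift [MeasurableSpace S] (k : Site d) :
    Measurable (shift k : Config d S → Config d S) := by
  unfold shift
  fun_prop

/-- Elements of the cone stay close to the base. -/
theorem mem_cone (Φ : PCA d S) (t : ℕ) {A : Finset (Site d)} {R : ℝ}
    (hR : ∀ n ∈ Φ.nbhd, ‖n‖ ≤ R) {i : Site d} (hi : i ∈ Φ.cone t A) :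
    ∃ a ∈ A, ‖i - a‖ ≤ t * R := by
  induction t generalizing A i with
  | zero => exact ⟨i, hi, by simp⟩
  | succ t ih =>
    have hi' : i ∈ Φ.cone t (A + Φ.nbhd) := hi
    obtain ⟨b, hb, hib⟩ := ih hi'
    obtain ⟨a, ha, n, hn, rfl⟩ := Finset.mem_add.1 hb
    refine ⟨a, ha, ?_⟩
    have : i - a = (i - (a + n)) + n := by abel
    rw [this]
    calc ‖(i - (a + n)) + n‖ ≤ ‖i - (a + n)‖ + ‖n‖ := norm_add_le _ _
      _ ≤ t * R + R := add_le_add hib (hR n hn)
      _ = ((t + 1 : ℕ) : ℝ) * R := by push_cast; ring

/-- The invariant measure of an ergodic automaton is invariant under the shifts. -/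
theorem map_shift_eq [Finite S] [TopologicalSpace S] [MeasurableSpace S]
    [MeasurableSingletonClass S] {Φ : PCA d S} {π : Measure (Config d S)}
    (h : IsErgodic Φ π) (k : Site d) : π.map (shift k) = π := by
  have hp := h.prob
  have hp' : IsProbabilityMeasure (π.map (shift k)) :=
    Measure.isProbabilityMeasure_map (measurable_shift k).aemeasurable
  apply h.unique _ hp'
  have hp'' := Φ.isProbabilityMeasure_evolve (π.map (shift k))
  apply ext_of_generate_finite (measurableCylinders (fun _ : Site d => S))
    generateFrom_measurableCylinders.symm isPiSystem_measurableCylinders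
  · intro s hs
    obtain ⟨I, T, hT, rfl⟩ := (mem_measurableCylinders _).1 hs
    have hdep : DependsOn (fun x : Config d S => (cylinder I T).indicator (fun _ => (1 : ℝ≥0∞)) x)
        I := by
      intro x y hxy
      have e : x ∈ cylinder I T ↔ y ∈ cylinder I T := by
        have : I.restrict x = I.restrict y := by
          funext i
          exact hxy i i.2
        simp only [mem_cylinder, this]
      by_cases hy : y ∈ cylinder I T
      · simp [Set.indicator, hy, e.2 hy]
      · have hx : x ∉ cylinder I T := fun h'' => hy (e.1 h'')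
        simp [Set.indicator, hy, hx]
    have hm : MeasurableSet (cylinder I T : Set (Config d S)) := hT.cylinder
    have hfm := PCA.measurable_of_dependsOn hdep
    have e1 : (Φ.evolve (π.map (shift k))) (cylinder I T) =
        ∫⁻ x, (cylinder I T).indicator (fun _ => (1 : ℝ≥0∞)) x ∂(Φ.evolve (π.map (shift k))) := by
      rw [lintegral_indicator hm]; simp
    rw [e1, Φ.lintegral_evolve _ hfm, lintegral_map
      (PCA.measurable_of_dependsOn (Φ.op_dependsOn hdep)) (measurable_shift k)]
    have e2 := Φ.op_shift hfm k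
    have e3 : (fun x => Φ.op (fun x : Config d S =>
        (cylinder I T).indicator (fun _ => (1 : ℝ≥0∞)) x) (shift k x)) =
        Φ.op (fun x => (cylinder I T).indicator (fun _ => (1 : ℝ≥0∞)) (shift k x)) := e2.symm
    calc ∫⁻ x, Φ.op (fun x : Config d S =>
          (cylinder I T).indicator (fun _ => (1 : ℝ≥0∞)) x) (shift k x) ∂π
        = ∫⁻ x, Φ.op (fun x => (cylinder I T).indicator (fun _ => (1 : ℝ≥0∞)) (shift k x)) x ∂π := by
          rw [← e3]
      _ = ∫⁻ x, (cylinder I T).indicator (fun _ => (1 : ℝ≥0∞)) (shift k x) ∂(Φ.evolve π) :=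
          (Φ.lintegral_evolve π (hfm.comp (measurable_shift k))).symm
      _ = ∫⁻ x, (cylinder I T).indicator (fun _ => (1 : ℝ≥0∞)) (shift k x) ∂π := by
          rw [h.invariant]
      _ = ∫⁻ x, (cylinder I T).indicator (fun _ => (1 : ℝ≥0∞)) x ∂(π.map (shift k)) :=
          (lintegral_map hfm (measurable_shift k)).symm
      _ = (π.map (shift k)) (cylinder I T) := by
          rw [lintegral_indicator hm]; simp
  · simp

/-- From every deterministic configuration the probability of a cylinder converges. -/
theorem tendsto_op [Finite S] [TopologicalSpace S] [DiscreteTopology S] [MeasurableSpace S]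
    [MeasurableSingletonClass S] {Φ : PCA d S} {π : Measure (Config d S)}
    (h : IsErgodic Φ π) (A : Finset (Site d)) (u : A → S) (x : Config d S) :
    Tendsto (fun t : ℕ => (Φ.op^[t] ((cyl A u).indicator (fun _ => (1 : ℝ≥0∞))) x).toReal)
      atTop (𝓝 (π (cyl A u)).toReal) := by
  have h1 := h.converges (Measure.dirac x) inferInstance
    ((cyl A u).indicator (fun _ => (1 : ℝ)))
    (by
      exact (isClopen_cyl A u).continuous_indicator continuous_const)
  have hm := measurableSet_cyl (d := d) A u
  have e1 : ∀ ν : Measure (Config d S), ∫ x, (cyl A u).indicator (fun _ => (1 : ℝ)) x ∂ν =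
      (ν (cyl A u)).toReal := by
    intro ν
    rw [integral_indicator hm]
    simp [Measure.real]
  simp only [e1] at h1
  have e2 : ∀ t : ℕ, (Φ.evolve^[t] (Measure.dirac x)) (cyl A u) =
      Φ.op^[t] ((cyl A u).indicator (fun _ => (1 : ℝ≥0∞))) x := by
    intro t
    rw [← Φ.iterate_dirac x t (dependsOn_cyl A u), lintegral_indicator hm]
    simp
  simp only [e2] at h1
  exact h1

/-- **Theorem.** The unique invariant measure of every ergodic probabilistic cellular automaton is
spatially mixing. -/
theorem result : ∀ (d : ℕ) (S : Type) [Finite S] [TopologicalSpace S] [DiscreteTopology S]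
    [MeasurableSpace S] [BorelSpace S] (Φ : PCA d S) (π : Measure (Config d S)),
    IsErgodic Φ π → SpatiallyMixing π := by
  intro d S _ _ _ _ _ Φ π h A B u v
  have hp := h.prob
  set f : Config d S → ℝ≥0∞ := (cyl A u).indicator (fun _ => (1 : ℝ≥0∞)) with hf
  set g : Config d S → ℝ≥0∞ := (cyl B v).indicator (fun _ => (1 : ℝ≥0∞)) with hg
  have hfd : DependsOn f A := dependsOn_cyl A u
  have hgd : DependsOn g B := dependsOn_cyl B v
  have hf1 : ∀ x, f x ≤ 1 := fun x => by
    rw [hf]; exact Set.indicator_le_self' (fun _ _ => by simp) x |>.trans le_rfl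
  have hg1 : ∀ x, g x ≤ 1 := fun x => by
    rw [hg]; exact Set.indicator_le_self' (fun _ _ => by simp) x |>.trans le_rfl
  -- the two `L¹` errors
  set a : ℕ → Config d S → ℝ := fun t x => (Φ.op^[t] f x).toReal with ha
  set b : ℕ → Config d S → ℝ := fun t x => (Φ.op^[t] g x).toReal with hb
  set p : ℝ := (π (cyl A u)).toReal with hpdef
  set q : ℝ := (π (cyl B v)).toReal with hqdef
  have ham : ∀ t, Measurable (a t) := fun t =>
    (PCA.measurable_of_dependsOn (Φ.op_iterate_dependsOn t hfd)).ennreal_toReal
  have hbm : ∀ t, Measurable (b t) := fun t =>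
    (PCA.measurable_of_dependsOn (Φ.op_iterate_dependsOn t hgd)).ennreal_toReal
  have ha0 : ∀ t x, 0 ≤ a t x := fun t x => ENNReal.toReal_nonneg
  have hb0 : ∀ t x, 0 ≤ b t x := fun t x => ENNReal.toReal_nonneg
  have ha1 : ∀ t x, a t x ≤ 1 := fun t x => by
    have := ENNReal.toReal_mono ENNReal.one_ne_top (Φ.op_iterate_le_one hf1 t x)
    simpa using this
  have hb1 : ∀ t x, b t x ≤ 1 := fun t x => by
    have := ENNReal.toReal_mono ENNReal.one_ne_top (Φ.op_iterate_le_one hg1 t x)
    simpa using this
  have hp0 : 0 ≤ p := ENNReal.toReal_nonneg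
  have hp1 : p ≤ 1 := by
    have := ENNReal.toReal_mono ENNReal.one_ne_top (prob_le_one (μ := π) (s := cyl A u))
    simpa using this
  have hq0 : 0 ≤ q := ENNReal.toReal_nonneg
  have hq1 : q ≤ 1 := by
    have := ENNReal.toReal_mono ENNReal.one_ne_top (prob_le_one (μ := π) (s := cyl B v))
    simpa using this
  have hA : Tendsto (fun t => ∫ x, |a t x - p| ∂π) atTop (𝓝 0) := by
    have : Tendsto (fun t => ∫ x, |a t x - p| ∂π) atTop (𝓝 (∫ _, (0 : ℝ) ∂π)) := by
      apply tendsto_integral_of_dominated_convergence (fun _ => (1 : ℝ))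
      · exact fun t => ((ham t).sub_const p).abs.aestronglyMeasurable
      · exact integrable_const _
      · intro t
        filter_upwards with x
        rw [Real.norm_eq_abs, abs_abs, abs_le]
        constructor <;> linarith [ha0 t x, ha1 t x]
      · filter_upwards with x
        have := (tendsto_op h A u x).sub_const p
        rw [sub_self] at this
        simpa using this.abs
    simpa using this
  have hB : Tendsto (fun t => ∫ x, |b t x - q| ∂π) atTop (𝓝 0) := by
    have : Tendsto (fun t => ∫ x, |b t x - q| ∂π) atTop (𝓝 (∫ _, (0 : ℝ) ∂π)) := by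
      apply tendsto_integral_of_dominated_convergence (fun _ => (1 : ℝ))
      · exact fun t => ((hbm t).sub_const q).abs.aestronglyMeasurable
      · exact integrable_const _
      · intro t
        filter_upwards with x
        rw [Real.norm_eq_abs, abs_abs, abs_le]
        constructor <;> linarith [hb0 t x, hb1 t x]
      · filter_upwards with x
        have := (tendsto_op h B v x).sub_const q
        rw [sub_self] at this
        simpa using this.abs
    simpa using this
  rw [Metric.tendsto_nhds]
  intro ε hε
  obtain ⟨t, htA, htB⟩ : ∃ t, (∫ x, |a t x - p| ∂π) < ε / 2 ∧ (∫ x, |b t x - q| ∂π) < ε / 2 := by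
    have e1 := hA.eventually (gt_mem_nhds (show (0 : ℝ) < ε / 2 by linarith))
    have e2 := hB.eventually (gt_mem_nhds (show (0 : ℝ) < ε / 2 by linarith))
    exact (e1.and e2).exists
  -- the range
  obtain ⟨R, hR⟩ : ∃ R : ℝ, ∀ n ∈ Φ.nbhd, ‖n‖ ≤ R := by
    obtain ⟨R, hR⟩ := (Φ.nbhd.finite_toSet.image (fun n : Site d => ‖n‖)).bddAbove
    exact ⟨R, fun n hn => hR ⟨n, hn, rfl⟩⟩
  obtain ⟨M, hM⟩ : ∃ M : ℝ, ∀ x ∈ A ×ˢ B, ‖x.1 - x.2‖ ≤ M := by
    obtain ⟨M, hM⟩ := ((A ×ˢ B).finite_toSet.image (fun x : Site d × Site d => ‖x.1 - x.2‖)).bddAbove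
    exact ⟨M, fun x hx => hM ⟨x, hx, rfl⟩⟩
  rw [eventually_comap]
  filter_upwards [eventually_gt_atTop (2 * (t * |R|) + M)] with r hr k hk
  -- the cones are disjoint
  have hR' : ∀ n ∈ Φ.nbhd, ‖n‖ ≤ |R| := fun n hn => (hR n hn).trans (le_abs_self R)
  have hdisj : ∀ s < t, Disjoint (Φ.cone s A) (Φ.cone s (B.image (fun j => j + k))) := by
    intro s hs
    rw [Finset.disjoint_left]
    intro i hi hi'
    obtain ⟨α, hα, hiα⟩ := mem_cone Φ s hR' hi
    obtain ⟨β', hβ', hiβ⟩ := mem_cone Φ s hR' hi'
    obtain ⟨β, hβ, rfl⟩ := Finset.mem_image.1 hβ'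
    have e : k = (i - β) - (i - (β + k)) := by abel
    have e2 : i - β = (i - α) + (α - β) := by abel
    have h1 : ‖α - β‖ ≤ M := hM (α, β) (Finset.mem_product.2 ⟨hα, hβ⟩)
    have h2 : ‖k‖ ≤ ‖i - β‖ + ‖i - (β + k)‖ := by
      calc ‖k‖ = ‖(i - β) - (i - (β + k))‖ := by rw [← e]
        _ ≤ _ := norm_sub_le _ _
    have h3 : ‖i - β‖ ≤ ‖i - α‖ + ‖α - β‖ := by
      rw [e2]; exact norm_add_le _ _
    have h4 : (s : ℝ) * |R| ≤ t * |R| := by
      apply mul_le_mul_of_nonneg_right _ (abs_nonneg R)
      exact_mod_cast hs.le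
    rw [hk] at h2
    linarith
  have hgk : DependsOn (fun x => g (shift k x)) ((B.image (fun j => j + k) : Finset (Site d)) :
      Set (Site d)) := by
    intro x y hxy
    apply hgd
    intro i hi
    apply hxy
    exact Finset.mem_coe.2 (Finset.mem_image.2 ⟨i, hi, rfl⟩)
  have hprod : DependsOn (fun x => f x * g (shift k x))
      ((A ∪ B.image (fun j => j + k) : Finset (Site d)) : Set (Site d)) := by
    intro x y hxy
    have e1 : f x = f y := hfd (fun i hi => hxy i (by
      rw [Finset.coe_union]; exact Or.inl hi))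
    have e2 : g (shift k x) = g (shift k y) := hgk (fun i hi => hxy i (by
      rw [Finset.coe_union]; exact Or.inr hi))
    simp only [e1, e2]
  have hmA := measurableSet_cyl (d := d) A u
  have hmB := measurableSet_cyl (d := d) B v
  -- the main identity
  have hinv : ∀ s : ℕ, Φ.evolve^[s] π = π := by
    intro s
    induction s with
    | zero => rfl
    | succ s ih => rw [Function.iterate_succ_apply', ih, h.invariant]
  have main : π (cyl A u ∩ shift k ⁻¹' cyl B v) =
      ∫⁻ x, Φ.op^[t] f x * Φ.op^[t] g (shift k x) ∂π := by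
    have e0 : π (cyl A u ∩ shift k ⁻¹' cyl B v) = ∫⁻ x, f x * g (shift k x) ∂π := by
      have : (fun x => f x * g (shift k x)) =
          (cyl A u ∩ shift k ⁻¹' cyl B v).indicator (fun _ => (1 : ℝ≥0∞)) := by
        funext x
        by_cases hx : x ∈ cyl A u <;> by_cases hy : shift k x ∈ cyl B v <;>
          simp [hf, hg, Set.indicator, hx, hy]
      rw [this, lintegral_indicator (hmA.inter (measurable_shift k hmB))]
      simp
    have e1 := Φ.lintegral_iterate π t hprod
    rw [hinv] at e1
    rw [e0, e1, Φ.op_iterate_mul t hfd hgk hdisj, Φ.op_iterate_shift t hgd k]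
  have main' : (π (cyl A u ∩ shift k ⁻¹' cyl B v)).toReal = ∫ x, a t x * b t (shift k x) ∂π := by
    rw [main, integral_eq_lintegral_of_nonneg_ae]
    · congr 1
      apply lintegral_congr
      intro x
      have e1 : Φ.op^[t] f x ≠ ⊤ :=
        ne_top_of_le_ne_top ENNReal.one_ne_top (Φ.op_iterate_le_one hf1 t x)
      have e2 : Φ.op^[t] g (shift k x) ≠ ⊤ :=
        ne_top_of_le_ne_top ENNReal.one_ne_top (Φ.op_iterate_le_one hg1 t _)
      rw [ENNReal.ofReal_mul (ha0 t x)]
      simp only [ha, hb]
      rw [ENNReal.ofReal_toReal e1, ENNReal.ofReal_toReal e2]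
    · filter_upwards with x
      exact mul_nonneg (ha0 t x) (hb0 t _)
    · exact ((ham t).mul ((hbm t).comp (measurable_shift k))).aestronglyMeasurable
  have hshift : ∫ x, |b t (shift k x) - q| ∂π = ∫ x, |b t x - q| ∂π := by
    have e := map_shift_eq h k
    have : ∫ x, |b t x - q| ∂(π.map (shift k)) = ∫ x, |b t (shift k x) - q| ∂π :=
      integral_map (measurable_shift k).aemeasurable
        ((hbm t).sub_const q).abs.aestronglyMeasurable
    rw [← this, e]
  have intA : Integrable (fun x => |a t x - p|) π := by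
    apply Integrable.of_bound ((ham t).sub_const p).abs.aestronglyMeasurable 1
    filter_upwards with x
    rw [Real.norm_eq_abs, abs_abs, abs_le]
    constructor <;> linarith [ha0 t x, ha1 t x]
  have intB : Integrable (fun x => |b t (shift k x) - q|) π := by
    apply Integrable.of_bound
      (((hbm t).comp (measurable_shift k)).sub_const q).abs.aestronglyMeasurable 1
    filter_upwards with x
    change ‖|b t (shift k x) - q|‖ ≤ 1
    rw [Real.norm_eq_abs, abs_abs, abs_le]
    constructor <;> linarith [hb0 t (shift k x), hb1 t (shift k x)]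
  have intAB : Integrable (fun x => a t x * b t (shift k x)) π := by
    apply Integrable.of_bound
      ((ham t).mul ((hbm t).comp (measurable_shift k))).aestronglyMeasurable 1
    filter_upwards with x
    change ‖a t x * b t (shift k x)‖ ≤ 1
    rw [Real.norm_eq_abs, abs_of_nonneg (mul_nonneg (ha0 t x) (hb0 t _))]
    exact mul_le_one₀ (ha1 t x) (hb0 t _) (hb1 t _)
  rw [Real.dist_eq, main']
  have e3 : (∫ x, a t x * b t (shift k x) ∂π) - p * q =
      ∫ x, (a t x * b t (shift k x) - p * q) ∂π := by
    rw [integral_sub intAB (integrable_const _)]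
    simp
  rw [e3]
  calc |∫ x, (a t x * b t (shift k x) - p * q) ∂π|
      ≤ ∫ x, |a t x * b t (shift k x) - p * q| ∂π := abs_integral_le_integral_abs
    _ ≤ ∫ x, (|a t x - p| + |b t (shift k x) - q|) ∂π := by
        apply integral_mono (intAB.sub (integrable_const _)).abs (intA.add intB)
        intro x
        show |a t x * b t (shift k x) - p * q| ≤ |a t x - p| + |b t (shift k x) - q|
        have e4 : a t x * b t (shift k x) - p * q =
            (a t x - p) * b t (shift k x) + p * (b t (shift k x) - q) := by ring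
        rw [e4]
        calc |(a t x - p) * b t (shift k x) + p * (b t (shift k x) - q)|
            ≤ |(a t x - p) * b t (shift k x)| + |p * (b t (shift k x) - q)| := abs_add_le _ _
          _ = |a t x - p| * b t (shift k x) + p * |b t (shift k x) - q| := by
              rw [abs_mul, abs_mul, abs_of_nonneg (hb0 t _), abs_of_nonneg hp0]
          _ ≤ |a t x - p| * 1 + 1 * |b t (shift k x) - q| := by
              apply add_le_add
              · exact mul_le_mul_of_nonneg_left (hb1 t _) (abs_nonneg _)
              · exact mul_le_mul_of_nonneg_right hp1 (abs_nonneg _)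
          _ = |a t x - p| + |b t (shift k x) - q| := by ring
    _ = (∫ x, |a t x - p| ∂π) + ∫ x, |b t (shift k x) - q| ∂π := integral_add intA intB
    _ < ε := by rw [hshift]; linarith

end Pool.Agent.Results.MP_3c7ff8_pr.ErgodicImpliesMixing
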